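import Pool.Agent.N846.DU.Stm

/-! The density bounds on `GL(n)` over a number field, one line of integration. -/

set_option autoImplicit false

namespace Pool.Agent.N846.DU

open Filter Topology Complex MeasureTheory Set NumberField IsDedekindDomain
open Pool.Agent.N846.DT (PairF core_gen ex half_exp dens summ_mono')

variable {K : Type} [Field K] [NumberField K] {n N : ℕ}

theorem one_lt_Nv (v : HeightOneSpectrum (𝓞 K)) : 1 < Nv v := by
  unfold Nv
  have h1 : Ideal.absNorm v.asIdeal ≠ 0 := by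
    rw [Ne, Ideal.absNorm_eq_zero_iff]
    exact v.ne_bot
  have h2 : Ideal.absNorm v.asIdeal ≠ 1 := by
    rw [Ne, Ideal.absNorm_eq_one_iff]
    exact v.isPrime.ne_top
  exact_mod_cast (by omega : 1 < Ideal.absNorm v.asIdeal)

theorem two_le_Nv (v : HeightOneSpectrum (𝓞 K)) : 2 ≤ Nv v := by
  have h := one_lt_Nv v
  unfold Nv at h ⊢
  have h1 : 1 < Ideal.absNorm v.asIdeal := by exact_mod_cast h
  exact_mod_cast h1

theorem LV_nonneg (x : VX K) : 0 ≤ LV x := by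
  unfold LV
  have := Real.log_nonneg (one_lt_Nv x.1).le
  positivity

theorem countable_HOS : Countable (HeightOneSpectrum (𝓞 K)) := by
  have h1 : Function.Injective fun v : HeightOneSpectrum (𝓞 K) => v.asIdeal := fun v w h =>
    HeightOneSpectrum.ext h
  have h2 : Countable (Ideal (𝓞 K)) := by
    have hf : ∀ m : ℕ, {I : Ideal (𝓞 K) | Ideal.absNorm I = m}.Countable ∨ m = 0 := by
      intro m
      rcases Nat.eq_zero_or_pos m with h | h
      · exact Or.inr h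
      · exact Or.inl (Ideal.finite_setOfPred_absNorm_eq m).countable
    have h3 : (⋃ m : ℕ, {I : Ideal (𝓞 K) | Ideal.absNorm I = m}).Countable := by
      refine Set.countable_iUnion fun m => ?_
      rcases hf m with h | h
      · exact h
      · rw [h]
        refine (Set.countable_singleton (⊥ : Ideal (𝓞 K))).mono fun I hI => ?_
        exact Ideal.absNorm_eq_zero_iff.1 hI
    have h4 : (Set.univ : Set (Ideal (𝓞 K))).Countable := by
      refine h3.mono fun I _ => ?_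
      exact Set.mem_iUnion.2 ⟨Ideal.absNorm I, rfl⟩
    exact Set.countable_univ_iff.1 h4
  exact h1.countable

instance : Countable (VX K) := by
  have : Countable (HeightOneSpectrum (𝓞 K)) := countable_HOS
  infer_instance

theorem one_le_cond {κ : Fin N → ℂ} {q : ℝ} (hq : 1 ≤ q) (z : ℂ) : 1 ≤ q * ∏ j, (1 + ‖κ j + z‖) := by
  have h1 : ∏ _j : Fin N, (1 : ℝ) ≤ ∏ j, (1 + ‖κ j + z‖) :=
    Finset.prod_le_prod (fun _ _ => zero_le_one) fun j _ => by linarith [norm_nonneg (κ j + z)]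
  simp only [Finset.prod_const_one] at h1
  nlinarith

theorem shift_cond {κ : Fin N → ℂ} {q : ℝ} (hq : 1 ≤ q) {z w : ℂ} {c : ℝ} (hc : ‖w‖ ≤ c) (v : ℝ) :
    q * ∏ j, (1 + ‖κ j + z + (w + v * I)‖) ≤ (1 + c) ^ N * (q * ∏ j, (1 + ‖κ j + z‖)) * (1 + |v|) ^ N := by
  have hc0 : 0 ≤ c := (norm_nonneg _).trans hc
  have h1 : ∏ j, (1 + ‖κ j + z + (w + v * I)‖) ≤ ∏ j, ((1 + c) * (1 + ‖κ j + z‖) * (1 + |v|)) := by
    refine Finset.prod_le_prod (fun j _ => by positivity) fun j _ => ?_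
    have h2 := norm_add_le (κ j + z) (w + v * I)
    have h3 := norm_add_le w (v * I)
    have h4 : ‖(v : ℂ) * I‖ = |v| := by simp
    rw [h4] at h3
    have h5 := norm_nonneg (κ j + z)
    have h6 := abs_nonneg v
    have h7 : 1 + ‖κ j + z + (w + v * I)‖ ≤ 1 + ‖κ j + z‖ + c + |v| := by linarith
    refine h7.trans ?_
    have h8 : 0 ≤ c * ‖κ j + z‖ := by positivity
    have h9 : 0 ≤ c * |v| := by positivity
    have h10 : 0 ≤ ‖κ j + z‖ * |v| := by positivity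
    have h11 : 0 ≤ c * ‖κ j + z‖ * |v| := by positivity
    nlinarith
  have h12 : ∏ j, ((1 + c) * (1 + ‖κ j + z‖) * (1 + |v|)) =
      (1 + c) ^ N * (∏ j, (1 + ‖κ j + z‖)) * (1 + |v|) ^ N := by
    rw [Finset.prod_mul_distrib, Finset.prod_mul_distrib]
    simp
  rw [h12] at h1
  calc _ ≤ q * ((1 + c) ^ N * (∏ j, (1 + ‖κ j + z‖)) * (1 + |v|) ^ N) :=
        mul_le_mul_of_nonneg_left h1 (by linarith)
    _ = _ := by ring

theorem shift_cond' {κ : Fin N → ℂ} {q : ℝ} (hq : 1 ≤ q) {z w : ℂ} {c : ℝ} (hc : ‖w‖ ≤ c) :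
    q * ∏ j, (1 + ‖κ j + z + w‖) ≤ (1 + c) ^ N * (q * ∏ j, (1 + ‖κ j + z‖)) := by
  have := shift_cond (κ := κ) hq (z := z) hc 0
  simpa using this

/-- general core: zeros at `s_f + conj s_g`, for `L`-functions multiplied by Euler factors `E` -/
theorem core_GL (hL : S_LEFT) (hDi : S_DIAG) (K : Type) [Field K] [NumberField K] (n N : ℕ) {σ₀ η η' c : ℝ}
    (hσ : 0 < σ₀) (hη : 0 < η) (hη1 : η ≤ 1) (hη' : 0 < η') (hc : 0 ≤ c) : ∃ A : ℝ, 0 < A ∧
    ∀ (ι : Type) [Fintype ι] (S : ι → Finset (HeightOneSpectrum (𝓞 K)))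
      (α : ι → HeightOneSpectrum (𝓞 K) → Fin n → ℂ) (u : ι → VX K → ℂ) (q : ι → ι → ℝ) (κ : ι → ι → Fin N → ℂ)
      (u' : ι → VX K → ℂ) (E : ι → ι → ℂ → ℂ) (s z : ι → ℂ), GLFamily n N S α u q κ →
      (∀ f x, ‖u' f x‖ ≤ ‖u f x‖) →
      (∀ f g, f ≠ g → ∀ F : ℂ → ℂ, PairF (u f) (u g) LV F → PairF (u' f) (u' g) LV fun s => F s * E f g s) →
      ∀ (δ Q P : ℝ), 0 ≤ δ → δ ≤ 1 / 2 → 1 ≤ Q → 1 ≤ P → (∀ f, δ ≤ (s f).re) → (∀ f, (s f).re ≤ 1 / 2) →
        (∀ f g, f ≠ g → (∃ j, κ f g j = -(s f + (starRingEnd ℂ) (s g))) ∨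
          E f g (s f + (starRingEnd ℂ) (s g)) = 0) →
        (∀ f, ‖z f‖ ≤ c) →
        (∀ f g, q f g * ∏ j, (1 + ‖κ f g j + ((s f - z f) + (starRingEnd ℂ) (s g - z g))‖) ≤ Q) →
        (∀ f g, f ≠ g → ∀ t : ℝ, ‖E f g (((-σ₀ : ℝ) : ℂ) + t * I)‖ ≤ 2 ^ (n ^ 2) * P ^ (1 / 2 + σ₀ + η')) →
        (Fintype.card ι : ℝ) ≤ A * (P * Q) ^ ex σ₀ η η' δ := by
  obtain ⟨CL, hCL0, hCL⟩ := hL N σ₀ hσ
  obtain ⟨C1, hC10, hC1⟩ := hDi K n N η η' hη hη'
  obtain ⟨C2, hC20, hC2⟩ := hDi K n N σ₀ η' hσ hη'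
  set b : ℝ := (1 + (1 + 2 * c)) ^ N with hb
  have hb0 : 0 < b := by positivity
  obtain ⟨A, hA0, hA⟩ := core_gen σ₀ η η' (CL * b ^ (1 / 2 + σ₀) * (C2 * b ^ η') * 2 ^ (n ^ 2))
    (C1 * b ^ η') (N * (1 / 2 + σ₀)) hσ hη hη1 hη'.le (by positivity) (by positivity) (by positivity)
  refine ⟨A, hA0, ?_⟩
  intro ι _ S α u q κ u' E s z h hu' hE δ Q P hδ hδ2 hQ hP hs1 hs2 hz hzc hcond hEb
  have hQ0 : 0 < Q := by linarith
  have hP0 : 0 < P := by linarith
  have hR1 : 1 ≤ P * Q := by nlinarith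
  have hQR : Q ≤ P * Q := by nlinarith
  have hq1 : ∀ f g, 1 ≤ q f g := by
    intro f g
    by_cases hfg : f = g
    · rw [hfg]
      exact (h.self g).one_le
    · exact (h.pair f g hfg).one_le
  -- the shift
  have hwb : ∀ f g, ‖(-((s f).re + (s g).re : ℝ) : ℂ) + (z f + (starRingEnd ℂ) (z g))‖ ≤ 1 + 2 * c := by
    intro f g
    refine (norm_add_le _ _).trans ?_
    have h1 : ‖(-((s f).re + (s g).re : ℝ) : ℂ)‖ ≤ 1 := by
      rw [norm_neg, Complex.norm_real, Real.norm_eq_abs, abs_le]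
      constructor <;> linarith [hs1 f, hs1 g, hs2 f, hs2 g]
    have h2 := norm_add_le (z f) ((starRingEnd ℂ) (z g))
    rw [RCLike.norm_conj] at h2
    linarith [hzc f, hzc g]
  have hself : ∀ f, q f f * ∏ j, (1 + ‖κ f f j‖) ≤ b * Q := by
    intro f
    have h1 := shift_cond' (κ := κ f f) (hq1 f f) (z := (s f - z f) + (starRingEnd ℂ) (s f - z f)) (hwb f f)
    refine le_trans (le_of_eq ?_) (h1.trans (mul_le_mul_of_nonneg_left (hcond f f) hb0.le))
    congr 1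
    refine Finset.prod_congr rfl fun j _ => ?_
    congr 2
    apply Complex.ext
    · simp
      ring
    · simp
  have hpow : ∀ f, (q f f * ∏ j, (1 + ‖κ f f j‖)) ^ η' ≤ b ^ η' * Q ^ η' := by
    intro f
    rw [← Real.mul_rpow hb0.le hQ0.le]
    have h1 := one_le_cond (κ := κ f f) (hq1 f f) 0
    simp only [add_zero] at h1
    exact Real.rpow_le_rpow (by linarith) (hself f) hη'.le
  have hD1 := fun f => hC1 (S f) (α f) (u f) (q f f) (κ f f) (h.rep f) (h.self f)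
  have hD2 := fun f => hC2 (S f) (α f) (u f) (q f f) (κ f f) (h.rep f) (h.self f)
  have hpair := fun f g (hfg : f ≠ g) => hCL K (u f) (u g) (q f g) (κ f g) 0 (by norm_num) (h.pair f g hfg)
    (h.rep f).summable (h.rep g).summable
  choose! F hF1 hF2 hF3 hF4 hF5 using hpair
  have hPF : ∀ f g, f ≠ g → PairF (u f) (u g) LV (F f g) := by
    intro f g hfg
    refine ⟨hF1 f g hfg, fun w hw => ?_, hF3 f g hfg⟩
    rw [hF2 f g hfg w (by linarith), pow_zero, one_mul]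
    rfl
  have hsq : ∀ f x, ‖u' f x‖ ^ 2 ≤ ‖u f x‖ ^ 2 := fun f x => pow_le_pow_left₀ (norm_nonneg _) (hu' f x) 2
  have hsum : ∀ f, Summable fun x => ‖u f x‖ ^ 2 * Real.exp (-((1 + η) * LV x)) := fun f =>
    (h.rep f).summable _ (by linarith)
  have hsum' : ∀ f, Summable fun x => ‖u' f x‖ ^ 2 * Real.exp (-((1 + η) * LV x)) := fun f =>
    Summable.of_nonneg_of_le (fun x => by positivity)
      (fun x => mul_le_mul_of_nonneg_right (hsq f x) (Real.exp_pos _).le) (hsum f)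
  refine hA (VX K) ι u' LV s (fun f g w => F f g w * E f g w) δ (P * Q) LV_nonneg hδ hδ2 hR1 hs1 hs2 hsum'
    ?_ ?_ ?_ ?_
  · intro f
    have h1 : ∑' x, ‖u' f x‖ ^ 2 * Real.exp (-((1 + η) * LV x)) ≤
        ∑' x, ‖u f x‖ ^ 2 * Real.exp (-((1 + η) * LV x)) :=
      (hsum' f).tsum_le_tsum (fun x => mul_le_mul_of_nonneg_right (hsq f x) (Real.exp_pos _).le) (hsum f)
    refine (Real.exp_le_exp.2 h1).trans ((hD1 f).trans ?_)
    rw [mul_assoc]
    refine mul_le_mul_of_nonneg_left ((hpow f).trans ?_) hC10.le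
    exact mul_le_mul_of_nonneg_left (Real.rpow_le_rpow hQ0.le hQR hη'.le) (by positivity)
  · exact fun f g hfg => hE f g hfg (F f g) (hPF f g hfg)
  · intro f g hfg
    rcases hz f g hfg with ⟨j, hj⟩ | h0
    · have h1 := hF4 f g hfg rfl j
      rw [hj, neg_neg] at h1
      simp only [h1, zero_mul]
    · simp only [h0, mul_zero]
  · intro f g hfg v
    set t0 : ℝ := (s f + (starRingEnd ℂ) (s g)).im with ht0
    have h1 := hF5 f g hfg (t0 + v)
    have h2 := hEb f g hfg (t0 + v)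
    simp only [pow_zero, mul_one] at h1
    simp only [norm_mul]
    have e1 : q f g * ∏ j, (1 + ‖κ f g j + ((t0 + v : ℝ) : ℂ) * I‖) ≤ b * Q * (1 + |v|) ^ N := by
      have h3 := shift_cond (κ := κ f g) (hq1 f g) (z := (s f - z f) + (starRingEnd ℂ) (s g - z g)) (hwb f g) v
      refine le_trans (le_of_eq ?_) (h3.trans (mul_le_mul_of_nonneg_right
        (mul_le_mul_of_nonneg_left (hcond f g) hb0.le) (by positivity)))
      congr 1
      refine Finset.prod_congr rfl fun j _ => ?_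
      congr 2
      apply Complex.ext
      · simp
        ring
      · simp [ht0]
        ring
    have h0 : 0 ≤ q f g * ∏ j, (1 + ‖κ f g j + ((t0 + v : ℝ) : ℂ) * I‖) := by
      have := one_le_cond (κ := κ f g) (hq1 f g) (((t0 + v : ℝ) : ℂ) * I)
      linarith
    have e4 : (q f g * ∏ j, (1 + ‖κ f g j + ((t0 + v : ℝ) : ℂ) * I‖)) ^ (1 / 2 + σ₀) ≤
        b ^ (1 / 2 + σ₀) * Q ^ (1 / 2 + σ₀) * (1 + |v|) ^ (N * (1 / 2 + σ₀)) := by
      refine (Real.rpow_le_rpow h0 e1 (by linarith)).trans (le_of_eq ?_)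
      rw [Real.mul_rpow (by positivity) (by positivity), Real.mul_rpow hb0.le hQ0.le,
        ← Real.rpow_natCast (1 + |v|) N, ← Real.rpow_mul (by positivity)]
    have e5 : Real.exp ((∑' x : VX K, ‖u f x‖ ^ 2 * Real.exp (-((1 + σ₀) * LV x))) / 2 +
        (∑' x : VX K, ‖u g x‖ ^ 2 * Real.exp (-((1 + σ₀) * LV x))) / 2) ≤ C2 * b ^ η' * Q ^ η' := by
      rw [mul_assoc]
      exact half_exp ((hD2 f).trans (mul_le_mul_of_nonneg_left (hpow f) hC20.le))
        ((hD2 g).trans (mul_le_mul_of_nonneg_left (hpow g) hC20.le))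
    have e6 : ‖F f g (((-σ₀ : ℝ) : ℂ) + ((t0 + v : ℝ) : ℂ) * I)‖ ≤
        CL * (b ^ (1 / 2 + σ₀) * Q ^ (1 / 2 + σ₀) * (1 + |v|) ^ (N * (1 / 2 + σ₀))) *
          (C2 * b ^ η' * Q ^ η') := by
      refine h1.trans ?_
      refine mul_le_mul (mul_le_mul_of_nonneg_left e4 hCL0.le) e5 (Real.exp_pos _).le (by positivity)
    refine (mul_le_mul e6 h2 (norm_nonneg _) (by positivity)).trans (le_of_eq ?_)
    rw [Real.mul_rpow hP0.le hQ0.le, Real.rpow_add hQ0 (1 / 2 + σ₀) η']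
    ring

end Pool.Agent.N846.DU
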