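import Pool.Agent.N846.DU.Core

/-! The density theorem on `GL(n)` over a number field: finite and archimedean places. -/

set_option autoImplicit false

namespace Pool.Agent.N846.DU

open Filter Topology Complex MeasureTheory Set NumberField IsDedekindDomain
open Pool.Agent.N846.DT (PairF ex dens two_lines finite_of_bound)

variable {K : Type} [Field K] [NumberField K] {n N : ℕ}

theorem log_Nv_ge (v : HeightOneSpectrum (𝓞 K)) : 0.69 ≤ Real.log (Nv v) := by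
  have h3 := Real.log_le_log (by norm_num) (two_le_Nv v)
  have h4 := Real.log_two_gt_d9
  norm_num at h4 ⊢
  linarith

theorem EV_bound (v : HeightOneSpectrum (𝓞 K)) {α β : HeightOneSpectrum (𝓞 K) → Fin n → ℂ}
    (hα : ∀ i, ‖α v i‖ < Nv v ^ (1 / 2 : ℝ)) (hβ : ∀ i, ‖β v i‖ < Nv v ^ (1 / 2 : ℝ))
    {σ₀ η' : ℝ} (hσ : 0 < σ₀) (hη' : 0 ≤ η') {s : ℂ} (hs : s.re = -σ₀) :
    ‖EV v α β s‖ ≤ 2 ^ (n ^ 2) * (Nv v ^ (2 * n ^ 2)) ^ (1 / 2 + σ₀ + η') := by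
  have hp1 : (1 : ℝ) ≤ Nv v := (one_lt_Nv v).le
  have hp0 : (0 : ℝ) < Nv v := by linarith
  unfold EV
  rw [norm_prod]
  simp_rw [norm_prod]
  calc _ ≤ ∏ _i : Fin n, ∏ _j : Fin n, (2 * Nv v ^ (1 + σ₀)) := by
        refine Pool.Agent.N846.DT.prod2_le (fun i j => norm_nonneg _) fun i j => ?_
        refine (norm_sub_le _ _).trans ?_
        rw [norm_one, norm_mul, norm_mul, RCLike.norm_conj, Complex.norm_exp]
        have e1 : (-(s * (Real.log (Nv v) : ℂ))).re = Real.log (Nv v) * σ₀ := by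
          rw [Complex.neg_re, Complex.re_mul_ofReal, hs]
          ring
        rw [e1, ← Real.rpow_def_of_pos hp0]
        have e2 : ‖α v i‖ * ‖β v j‖ ≤ Nv v := by
          have e3 : Nv v = Nv v ^ (1 / 2 : ℝ) * Nv v ^ (1 / 2 : ℝ) := by
            rw [← Real.rpow_add hp0]
            norm_num
          calc _ ≤ Nv v ^ (1 / 2 : ℝ) * Nv v ^ (1 / 2 : ℝ) :=
                mul_le_mul (hα i).le (hβ j).le (norm_nonneg _) (by positivity)
            _ = _ := e3.symm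
        have e4 : Nv v ^ (1 + σ₀) = Nv v * Nv v ^ σ₀ := by
          rw [Real.rpow_add hp0, Real.rpow_one]
        have e5 : 1 ≤ Nv v ^ σ₀ := Real.one_le_rpow hp1 hσ.le
        have e6 : ‖α v i‖ * ‖β v j‖ * Nv v ^ σ₀ ≤ Nv v * Nv v ^ σ₀ :=
          mul_le_mul_of_nonneg_right e2 (by positivity)
        rw [e4]
        nlinarith
    _ = (2 * Nv v ^ (1 + σ₀)) ^ (n ^ 2) := by
        simp_rw [Finset.prod_const, Finset.card_univ, Fintype.card_fin]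
        rw [← pow_mul, sq]
    _ = 2 ^ (n ^ 2) * (Nv v ^ (1 + σ₀)) ^ (n ^ 2) := mul_pow _ _ _
    _ ≤ _ := by
        refine mul_le_mul_of_nonneg_left ?_ (by positivity)
        rw [← Real.rpow_natCast, ← Real.rpow_natCast, ← Real.rpow_mul hp0.le, ← Real.rpow_mul hp0.le]
        refine Real.rpow_le_rpow_of_exponent_le hp1 ?_
        push_cast
        have : (0 : ℝ) ≤ (n : ℝ) ^ 2 := by positivity
        nlinarith

theorem GLFamily.sub {ι : Type} {S : ι → Finset (HeightOneSpectrum (𝓞 K))}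
    {α : ι → HeightOneSpectrum (𝓞 K) → Fin n → ℂ} {u : ι → VX K → ℂ} {q : ι → ι → ℝ} {κ : ι → ι → Fin N → ℂ}
    (h : GLFamily n N S α u q κ) {ι' : Type} (e : ι' → ι) (he : Function.Injective e) :
    GLFamily n N (fun f => S (e f)) (fun f => α (e f)) (fun f => u (e f)) (fun f g => q (e f) (e g))
      (fun f g => κ (e f) (e g)) :=
  ⟨fun _ => h.rep _, fun _ => h.self _, fun _ _ hfg => h.pair _ _ fun h' => hfg (he h')⟩

/-- archimedean places -/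
theorem arch_core (hL : S_LEFT) (hDi : S_DIAG) (K : Type) [Field K] [NumberField K] (n N : ℕ) {σ₀ η η' : ℝ}
    (hσ : 0 < σ₀) (hη : 0 < η) (hη1 : η ≤ 1) (hη' : 0 < η') : ∃ A : ℝ, 0 < A ∧
    ∀ (ι : Type) [Fintype ι] (S : ι → Finset (HeightOneSpectrum (𝓞 K)))
      (α : ι → HeightOneSpectrum (𝓞 K) → Fin n → ℂ) (u : ι → VX K → ℂ) (q : ι → ι → ℝ) (κ : ι → ι → Fin N → ℂ)
      (s : ι → ℂ), GLFamily n N S α u q κ →
      ∀ (δ Q : ℝ), 0 ≤ δ → δ ≤ 1 / 2 → 1 ≤ Q → (∀ f, δ ≤ (s f).re) → (∀ f, (s f).re ≤ 1 / 2) →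
        (∀ f g, f ≠ g → ∃ j, κ f g j = -(s f + (starRingEnd ℂ) (s g))) →
        (∀ f g, q f g * ∏ j, (1 + ‖κ f g j + (s f + (starRingEnd ℂ) (s g))‖) ≤ Q) →
        (Fintype.card ι : ℝ) ≤ A * Q ^ ex σ₀ η η' δ := by
  obtain ⟨A, hA0, hA⟩ := core_GL hL hDi K n N (c := 0) hσ hη hη1 hη' le_rfl
  refine ⟨A, hA0, ?_⟩
  intro ι _ S α u q κ s h δ Q hδ hδ2 hQ hs1 hs2 hz hcond
  have h1 := hA ι S α u q κ u (fun _ _ _ => 1) s (fun _ => 0) h (fun _ _ => le_rfl)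
    (fun f g _ F hF => by simpa using hF) δ Q 1 hδ hδ2 hQ le_rfl hs1 hs2 (fun f g hfg => Or.inl (hz f g hfg))
    (fun _ => by simp) (fun f g => by simpa using hcond f g) (fun f g _ t => by
      rw [Real.one_rpow, norm_one, mul_one]
      exact one_le_pow₀ (by norm_num))
  rwa [one_mul] at h1

/-- finite places -/
theorem fin_core (hL : S_LEFT) (hDi : S_DIAG) (hE : S_EUL) (K : Type) [Field K] [NumberField K] (n N : ℕ)
    {σ₀ η η' : ℝ} (hσ : 0 < σ₀) (hη : 0 < η) (hη1 : η ≤ 1) (hη' : 0 < η') : ∃ A : ℝ, 0 < A ∧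
    ∀ (ι : Type) [Fintype ι] (S : ι → Finset (HeightOneSpectrum (𝓞 K)))
      (α : ι → HeightOneSpectrum (𝓞 K) → Fin n → ℂ) (u : ι → VX K → ℂ) (q : ι → ι → ℝ) (κ : ι → ι → Fin N → ℂ),
      GLFamily n N S α u q κ →
      ∀ (v : HeightOneSpectrum (𝓞 K)) (δ Q : ℝ), 0 ≤ δ → δ ≤ 1 / 2 → 1 ≤ Q → (∀ f, v ∉ S f) →
        (∀ f, ∃ k, δ ≤ |Real.logb (Nv v) ‖α f v k‖|) →
        (∀ f g, q f g * ∏ j, (1 + ‖κ f g j‖) ≤ Q) →
        (Fintype.card ι : ℝ) ≤ A * (Nv v ^ (2 * n ^ 2) * Q) ^ ex σ₀ η η' δ := by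
  obtain ⟨A, hA0, hA⟩ := core_GL hL hDi K n N (c := 6) hσ hη hη1 hη' (by norm_num)
  refine ⟨A, hA0, ?_⟩
  intro ι _ S α u q κ h v δ Q hδ hδ2 hQ hv hk hcond
  have hp1 := one_lt_Nv v
  have hp0 : (0 : ℝ) < Nv v := by linarith
  have hlp := log_Nv_ge v
  have hlp0 : 0 < Real.log (Nv v) := by linarith
  have hP1 : (1 : ℝ) ≤ Nv v ^ (2 * n ^ 2) := one_le_pow₀ hp1.le
  have hi : ∀ f, ∃ i, δ ≤ Real.logb (Nv v) ‖α f v i‖ := by
    intro f
    obtain ⟨k, hk1⟩ := hk f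
    rcases le_total (Real.logb (Nv v) ‖α f v k‖) 0 with h0 | h0
    · rw [abs_of_nonpos h0] at hk1
      obtain ⟨τ, hτ⟩ := (h.rep f).unitary v (hv f)
      refine ⟨τ k, ?_⟩
      rw [hτ, norm_inv, RCLike.norm_conj, Real.logb_inv]
      exact hk1
    · rw [abs_of_nonneg h0] at hk1
      exact ⟨k, hk1⟩
  choose i hi1 using hi
  set s : ι → ℂ := fun f => Complex.log (α f v (i f)) / (Real.log (Nv v) : ℂ) with hs
  have hsre : ∀ f, (s f).re = Real.logb (Nv v) ‖α f v (i f)‖ := by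
    intro f
    simp only [hs]
    rw [Complex.div_ofReal_re, Complex.log_re]
    rfl
  have hsim : ∀ f, |(s f).im| ≤ 5 := by
    intro f
    simp only [hs]
    rw [Complex.div_ofReal_im, Complex.log_im, abs_div, abs_of_pos hlp0, div_le_iff₀ hlp0]
    have h1 := Complex.abs_arg_le_pi (α f v (i f))
    have h2 := Real.pi_lt_d2
    nlinarith
  have hs1 : ∀ f, δ ≤ (s f).re := fun f => by
    rw [hsre]
    exact hi1 f
  have hs2 : ∀ f, (s f).re ≤ 1 / 2 := by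
    intro f
    rw [hsre]
    have h1 := (h.rep f).bound v (hv f) (i f)
    have h2 : 0 < ‖α f v (i f)‖ := norm_pos_iff.2 ((h.rep f).ne_zero v (hv f) (i f))
    rw [Real.logb_le_iff_le_rpow hp1 h2]
    exact h1.le
  have hexp : ∀ f, cexp (s f * (Real.log (Nv v) : ℂ)) = α f v (i f) := by
    intro f
    have hne : ((Real.log (Nv v) : ℝ) : ℂ) ≠ 0 := by exact_mod_cast hlp0.ne'
    simp only [hs]
    rw [div_mul_cancel₀ _ hne, Complex.exp_log ((h.rep f).ne_zero v (hv f) (i f))]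
  refine hA ι S α u q κ (fun f => uV v (u f)) (fun f g => EV v (α f) (α g)) s s h ?_ ?_ δ Q _ hδ hδ2 hQ hP1
    hs1 hs2 ?_ ?_ ?_ ?_
  · intro f x
    unfold uV
    split_ifs
    · simp
    · exact le_rfl
  · intro f g _ F hF
    exact hE K n v (S f) (S g) (α f) (α g) (u f) (u g) F (h.rep f) (h.rep g) (hv f) (hv g) hF
  · intro f g _
    right
    unfold EV
    refine Finset.prod_eq_zero (Finset.mem_univ (i f)) (Finset.prod_eq_zero (Finset.mem_univ (i g)) ?_)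
    have h2 : cexp (-((s f + (starRingEnd ℂ) (s g)) * (Real.log (Nv v) : ℂ))) =
        (α f v (i f) * (starRingEnd ℂ) (α g v (i g)))⁻¹ := by
      rw [Complex.exp_neg, add_mul, Complex.exp_add, hexp f]
      congr 2
      rw [← hexp g, ← Complex.exp_conj]
      congr 1
      rw [map_mul, Complex.conj_ofReal]
    rw [h2, mul_inv_cancel₀, sub_self]
    refine mul_ne_zero ((h.rep f).ne_zero _ (hv f) _) ?_
    rw [Ne, map_eq_zero]
    exact (h.rep g).ne_zero _ (hv g) _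
  · intro f
    have h1 := Complex.norm_le_abs_re_add_abs_im (s f)
    have h2 : |(s f).re| ≤ 1 / 2 := by
      rw [abs_of_nonneg (hδ.trans (hs1 f))]
      exact hs2 f
    linarith [hsim f]
  · intro f g
    simpa using hcond f g
  · intro f g _ t
    exact EV_bound v ((h.rep f).bound v (hv f)) ((h.rep g).bound v (hv g)) hσ hη'.le (by simp)

/-- the full statement -/
def Density (K : Type) [Field K] [NumberField K] (n N : ℕ) (ε : ℝ) : Prop := ∃ A : ℝ, 0 < A ∧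
  ∀ (ι : Type) (S : ι → Finset (HeightOneSpectrum (𝓞 K))) (α : ι → HeightOneSpectrum (𝓞 K) → Fin n → ℂ)
    (u : ι → VX K → ℂ) (q : ι → ι → ℝ) (κ : ι → ι → Fin N → ℂ), GLFamily n N S α u q κ →
    (∀ (v : HeightOneSpectrum (𝓞 K)) (δ Q : ℝ) (T : Set ι), 0 ≤ δ → 1 ≤ Q →
      (∀ f ∈ T, v ∉ S f ∧ ∃ k, δ ≤ |Real.logb (Nv v) ‖α f v k‖|) →
      (∀ f ∈ T, ∀ g ∈ T, q f g * ∏ j, (1 + ‖κ f g j‖) ≤ Q) →
      T.Finite ∧ (T.ncard : ℝ) ≤ A * (Nv v ^ (2 * n ^ 2) * Q) ^ (dens δ + ε)) ∧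
    (∀ (δ Q : ℝ) (T : Set ι) (s : ι → ℂ), 0 ≤ δ → 1 ≤ Q →
      (∀ f ∈ T, δ ≤ (s f).re ∧ (s f).re ≤ 1 / 2) →
      (∀ f ∈ T, ∀ g ∈ T, f ≠ g → ∃ j, κ f g j = -(s f + (starRingEnd ℂ) (s g))) →
      (∀ f ∈ T, ∀ g ∈ T, q f g * ∏ j, (1 + ‖κ f g j + (s f + (starRingEnd ℂ) (s g))‖) ≤ Q) →
      T.Finite ∧ (T.ncard : ℝ) ≤ A * Q ^ (dens δ + ε))

theorem density (hL : S_LEFT) (hDi : S_DIAG) (hE : S_EUL) (K : Type) [Field K] [NumberField K] (n N : ℕ)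
    {ε : ℝ} (hε : 0 < ε) : Density K n N ε := by
  obtain ⟨A1, hA10, hA1⟩ := two_lines (P := fun δ R c _ _ => ∃ (ι : Type) (_ : Fintype ι)
      (S : ι → Finset (HeightOneSpectrum (𝓞 K)))
      (α : ι → HeightOneSpectrum (𝓞 K) → Fin n → ℂ) (u : ι → VX K → ℂ) (q : ι → ι → ℝ) (κ : ι → ι → Fin N → ℂ)
      (v : HeightOneSpectrum (𝓞 K)) (Q : ℝ), GLFamily n N S α u q κ ∧ 1 ≤ Q ∧ (∀ f, v ∉ S f) ∧
        (∀ f, ∃ k, δ ≤ |Real.logb (Nv v) ‖α f v k‖|) ∧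
        (∀ f g, q f g * ∏ j, (1 + ‖κ f g j‖) ≤ Q) ∧ c = (Fintype.card ι : ℝ) ∧ R = Nv v ^ (2 * n ^ 2) * Q)
    (fun σ₀ η η' hσ hη hη1 hη' => by
      obtain ⟨A, hA0, hA⟩ := fin_core hL hDi hE K n N hσ hη hη1 hη'
      refine ⟨A, hA0, ?_⟩
      rintro δ R c hδ hδ2 hR ⟨ι, hι, S, α, u, q, κ, v, Q, h1, h2, h3, h4, h5, rfl, rfl⟩
      exact hA ι S α u q κ h1 v δ Q hδ hδ2 h2 h3 h4 h5) hε
  obtain ⟨A2, hA20, hA2⟩ := two_lines (P := fun δ R c _ _ => ∃ (ι : Type) (_ : Fintype ι)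
      (S : ι → Finset (HeightOneSpectrum (𝓞 K)))
      (α : ι → HeightOneSpectrum (𝓞 K) → Fin n → ℂ) (u : ι → VX K → ℂ) (q : ι → ι → ℝ) (κ : ι → ι → Fin N → ℂ)
      (s : ι → ℂ), GLFamily n N S α u q κ ∧ (∀ f, δ ≤ (s f).re) ∧ (∀ f, (s f).re ≤ 1 / 2) ∧
        (∀ f g, f ≠ g → ∃ j, κ f g j = -(s f + (starRingEnd ℂ) (s g))) ∧
        (∀ f g, q f g * ∏ j, (1 + ‖κ f g j + (s f + (starRingEnd ℂ) (s g))‖) ≤ R) ∧ c = (Fintype.card ι : ℝ))
    (fun σ₀ η η' hσ hη hη1 hη' => by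
      obtain ⟨A, hA0, hA⟩ := arch_core hL hDi K n N hσ hη hη1 hη'
      refine ⟨A, hA0, ?_⟩
      rintro δ R c hδ hδ2 hR ⟨ι, hι, S, α, u, q, κ, s, h1, h2, h3, h4, h5, rfl⟩
      exact hA ι S α u q κ s h1 δ R hδ hδ2 hR h2 h3 h4 h5) hε
  refine ⟨A1 + A2, by positivity, fun ι S α u q κ h => ⟨?_, ?_⟩⟩
  · intro v δ Q T hδ hQ hk hcond
    have hp1 := one_lt_Nv v
    have hP1 : (1 : ℝ) ≤ Nv v ^ (2 * n ^ 2) := one_le_pow₀ hp1.le
    have hR1 : 1 ≤ Nv v ^ (2 * n ^ 2) * Q := by nlinarith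
    have hX : 0 ≤ (Nv v ^ (2 * n ^ 2) * Q) ^ (dens δ + ε) := by positivity
    have hQX : 0 ≤ (A1 + A2) * (Nv v ^ (2 * n ^ 2) * Q) ^ (dens δ + ε) := by positivity
    refine finite_of_bound fun T' hT => ?_
    rcases T'.eq_empty_or_nonempty with hTe | ⟨f0, hf0⟩
    · rw [hTe]
      simpa using hQX
    have hδ2 : δ ≤ 1 / 2 := by
      obtain ⟨hv, k, hk2⟩ := hk f0 (hT f0 hf0)
      have hub : ∀ i, Real.logb (Nv v) ‖α f0 v i‖ ≤ 1 / 2 := by
        intro i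
        have h2 : 0 < ‖α f0 v i‖ := norm_pos_iff.2 ((h.rep f0).ne_zero v hv i)
        rw [Real.logb_le_iff_le_rpow hp1 h2]
        exact ((h.rep f0).bound v hv i).le
      rcases le_total (Real.logb (Nv v) ‖α f0 v k‖) 0 with h0 | h0
      · rw [abs_of_nonpos h0] at hk2
        obtain ⟨τ, hτ⟩ := (h.rep f0).unitary v hv
        have h3 := hub (τ k)
        rw [hτ, norm_inv, RCLike.norm_conj, Real.logb_inv] at h3
        linarith
      · rw [abs_of_nonneg h0] at hk2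
        linarith [hub k]
    have h1 := hA1 δ _ (T'.card : ℝ) hδ hδ2 hR1 ⟨{f // f ∈ T'}, inferInstance, _, _, _, _, _, v, Q,
      h.sub (fun f : {f // f ∈ T'} => f.1) Subtype.val_injective, hQ, fun f => (hk f.1 (hT _ f.2)).1,
      fun f => (hk f.1 (hT _ f.2)).2, fun f g => hcond f.1 (hT _ f.2) g.1 (hT _ g.2), by simp, rfl⟩
    refine h1.trans (mul_le_mul_of_nonneg_right (by linarith) hX)
  · intro δ Q T s hδ hQ hs hz hcond
    have hX : 0 ≤ Q ^ (dens δ + ε) := by positivity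
    have hQX : 0 ≤ (A1 + A2) * Q ^ (dens δ + ε) := by positivity
    refine finite_of_bound fun T' hT => ?_
    rcases T'.eq_empty_or_nonempty with hTe | ⟨f0, hf0⟩
    · rw [hTe]
      simpa using hQX
    have hδ2 : δ ≤ 1 / 2 := (hs f0 (hT f0 hf0)).1.trans (hs f0 (hT f0 hf0)).2
    have h1 := hA2 δ _ (T'.card : ℝ) hδ hδ2 hQ ⟨{f // f ∈ T'}, inferInstance, _, _, _, _, _,
      fun f => s f.1, h.sub (fun f : {f // f ∈ T'} => f.1) Subtype.val_injective,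
      fun f => (hs f.1 (hT _ f.2)).1, fun f => (hs f.1 (hT _ f.2)).2,
      fun f g hfg => hz f.1 (hT _ f.2) g.1 (hT _ g.2) fun h' => hfg (Subtype.ext h'),
      fun f g => hcond f.1 (hT _ f.2) g.1 (hT _ g.2), by simp⟩
    refine h1.trans (mul_le_mul_of_nonneg_right (by linarith) hX)

end Pool.Agent.N846.DU
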