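import Pool.Agent.N846.DU.Stm
import Pool.Agent.N846.DT.Gam

/-!
# Project DU (helper846), part GAM (helper391): quotients of Gamma factors, uniformly in a half-plane

For `Re z ≤ 1` this is `Pool.Agent.N846.DT.gam` (helper614); for `Re z ≥ 1` we use the
Phragmen-Lindelof principle in the half-plane.
-/

set_option autoImplicit false

namespace Pool.Agent.N846.DU

open Complex MeasureTheory Filter Bornology

namespace GAMU

lemma gam_nat (m : ℕ) (w : ℂ) (hw : 0 < w.re) :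
    ‖Gamma (w + m)‖ ≤ (‖w‖ + m) ^ m * ‖Gamma w‖ := by
  induction m with
  | zero => simp
  | succ m ih =>
    have e : w + ((m + 1 : ℕ) : ℂ) = (w + m) + 1 := by push_cast; ring
    have hne : w + m ≠ 0 := by
      intro h
      have := congrArg Complex.re h
      simp at this
      have h5 : (0 : ℝ) ≤ m := Nat.cast_nonneg m
      linarith
    rw [e, Complex.Gamma_add_one _ hne, norm_mul, pow_succ]
    have h2 : ‖w + m‖ ≤ ‖w‖ + ((m + 1 : ℕ) : ℝ) := by
      refine (norm_add_le _ _).trans ?_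
      rw [Complex.norm_natCast]
      push_cast
      linarith
    have h3 : ‖w‖ + (m : ℝ) ≤ ‖w‖ + ((m + 1 : ℕ) : ℝ) := by push_cast; linarith
    calc ‖w + m‖ * ‖Gamma (w + m)‖
        ≤ (‖w‖ + ((m + 1 : ℕ) : ℝ)) * ((‖w‖ + ((m + 1 : ℕ) : ℝ)) ^ m * ‖Gamma w‖) := by
          gcongr
          refine ih.trans ?_
          gcongr
      _ = _ := by ring

lemma gam_beta {a : ℝ} {m : ℕ} (ha : 1 / 2 ≤ a) (hm : a + 1 < m) (w : ℂ) (hw : 1 / 2 ≤ w.re) :
    ‖Gamma (w + a)‖ * Real.Gamma (m - a) ≤ ‖Gamma (w + m)‖ := by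
  have h1 := Complex.Gamma_mul_Gamma_eq_betaIntegral (s := w + a) (t := ((m - a : ℝ) : ℂ))
    (by simp; linarith) (by simp; linarith)
  have e1 : w + a + ((m - a : ℝ) : ℂ) = w + m := by push_cast; ring
  rw [e1] at h1
  have h2 : ‖betaIntegral (w + a) ((m - a : ℝ) : ℂ)‖ ≤ 1 := by
    unfold betaIntegral
    have := intervalIntegral.norm_integral_le_of_norm_le_const (a := 0) (b := 1) (C := 1)
      (f := fun x : ℝ => (x : ℂ) ^ (w + a - 1) * (1 - (x : ℂ)) ^ (((m - a : ℝ) : ℂ) - 1)) (by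
        intro x hx
        rw [Set.uIoc_of_le zero_le_one] at hx
        have hx0 : 0 < x := hx.1
        have hx1 : 0 ≤ 1 - x := by linarith [hx.2]
        rw [norm_mul, Complex.norm_cpow_eq_rpow_re_of_pos hx0]
        have e2 : (1 - (x : ℂ)) = ((1 - x : ℝ) : ℂ) := by push_cast; ring
        have e3 : (((m - a : ℝ) : ℂ) - 1).re = m - a - 1 := by simp
        rw [e2, Complex.norm_cpow_eq_rpow_re_of_nonneg hx1 (by rw [e3]; linarith), e3]
        have k1 : x ^ ((w + a - 1).re) ≤ 1 :=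
          Real.rpow_le_one hx0.le hx.2 (by simp; linarith)
        have k2 : (1 - x) ^ ((m : ℝ) - a - 1) ≤ 1 :=
          Real.rpow_le_one hx1 (by linarith) (by linarith)
        have k3 : 0 ≤ x ^ ((w + a - 1).re) := by positivity
        nlinarith)
    simpa using this
  have h3 := congrArg norm h1
  rw [norm_mul, norm_mul, Complex.Gamma_ofReal, Complex.norm_real,
    Real.norm_of_nonneg (Real.Gamma_pos_of_pos (by linarith)).le] at h3
  rw [h3]
  exact mul_le_of_le_one_right (norm_nonneg _) h2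

lemma gam_real_nat (m : ℕ) (x : ℝ) (hx : 0 < x) :
    Real.Gamma (x + m) ≤ (x + m) ^ m * Real.Gamma x := by
  have h := gam_nat m (x : ℂ) (by simpa using hx)
  have e : (x : ℂ) + m = ((x + m : ℝ) : ℂ) := by push_cast; ring
  have h1 : 0 < x + m := by positivity
  rw [e, Complex.Gamma_ofReal, Complex.Gamma_ofReal, Complex.norm_real, Complex.norm_real,
    Complex.norm_real, Real.norm_of_nonneg (Real.Gamma_pos_of_pos hx).le,
    Real.norm_of_nonneg (Real.Gamma_pos_of_pos h1).le, Real.norm_of_nonneg hx.le] at h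
  exact h

lemma gam_real {a : ℝ} {m : ℕ} (ha : 0 < a) (hm : a < m) (x : ℝ) (hx : 0 < x) :
    Real.Gamma (x + a) ≤ (x + m) ^ a * Real.Gamma x := by
  have hm0 : (0 : ℝ) < m := by linarith
  have hG : 0 < Real.Gamma x := Real.Gamma_pos_of_pos hx
  have h1 := Real.Gamma_mul_add_mul_le_rpow_Gamma_mul_rpow_Gamma (s := x) (t := x + m)
    (a := 1 - a / m) (b := a / m) hx (by positivity) (by
      rw [sub_pos, div_lt_one hm0]; exact hm) (by positivity) (by ring)
  have e1 : (1 - a / m) * x + a / m * (x + m) = x + a := by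
    field_simp
    ring
  rw [e1] at h1
  refine h1.trans ?_
  have h2 : Real.Gamma (x + m) ^ (a / m) ≤ ((x + m) ^ m * Real.Gamma x) ^ (a / m) :=
    Real.rpow_le_rpow (Real.Gamma_pos_of_pos (by positivity)).le (gam_real_nat m x hx)
      (by positivity)
  calc Real.Gamma x ^ (1 - a / m) * Real.Gamma (x + m) ^ (a / m)
      ≤ Real.Gamma x ^ (1 - a / m) * ((x + m) ^ m * Real.Gamma x) ^ (a / m) := by gcongr
    _ = (x + m) ^ a * Real.Gamma x := by
      rw [Real.mul_rpow (by positivity) hG.le, ← Real.rpow_natCast (x + m) m, ← Real.rpow_mul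
        (by positivity), mul_div_cancel₀ a hm0.ne', mul_left_comm, ← Real.rpow_add hG,
        sub_add_cancel, Real.rpow_one]

/-- crude bound in the half-plane -/
lemma crude {a : ℝ} {m : ℕ} (ha : 1 / 2 ≤ a) (hm : a + 1 < m) (w : ℂ) (hw : 1 / 2 ≤ w.re) :
    ‖Gamma (w + a) * (Gamma w)⁻¹‖ ≤ (Real.Gamma (m - a))⁻¹ * (‖w‖ + m) ^ m := by
  have h1 := gam_beta ha hm w hw
  have h2 := gam_nat m w (by linarith)
  have hG : 0 < Real.Gamma (m - a) := Real.Gamma_pos_of_pos (by linarith)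
  have hw0 : 0 < ‖Gamma w‖ := norm_pos_iff.2 (Complex.Gamma_ne_zero_of_re_pos (by linarith))
  rw [norm_mul, norm_inv, ← div_eq_mul_inv, div_le_iff₀ hw0, inv_mul_eq_div, div_mul_eq_mul_div,
    le_div_iff₀ hG]
  exact h1.trans h2

/-- the function for the Phragmen-Lindelof principle -/
noncomputable def ff (a : ℝ) (v : ℂ) : ℂ :=
  Gamma ((v + ((1 / 2 : ℝ) : ℂ)) + a) * (Gamma (v + ((1 / 2 : ℝ) : ℂ)))⁻¹ * (v + 1) ^ ((-a : ℝ) : ℂ)

lemma norm_ff (a : ℝ) (v : ℂ) : ‖ff a v‖ = ‖Gamma ((v + ((1 / 2 : ℝ) : ℂ)) + a) *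
    (Gamma (v + ((1 / 2 : ℝ) : ℂ)))⁻¹‖ * ‖v + 1‖ ^ (-a) := by
  unfold ff
  rw [norm_mul, Complex.norm_cpow_real]

lemma re_le (v : ℂ) (hv : 0 ≤ v.re) : 1 ≤ ‖v + 1‖ := by
  have h := Complex.re_le_norm (v + 1)
  simp at h
  linarith

lemma ff_crude {a : ℝ} {m : ℕ} (ha : 1 / 2 ≤ a) (hm : a + 1 < m) (v : ℂ) (hv : 0 ≤ v.re) :
    ‖ff a v‖ ≤ (Real.Gamma (m - a))⁻¹ * (‖v‖ + 1 / 2 + m) ^ m := by
  rw [norm_ff]
  have h1 := crude ha hm (v + ((1 / 2 : ℝ) : ℂ)) (by rw [add_re, ofReal_re]; linarith)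
  have h2 : ‖v + 1‖ ^ (-a) ≤ 1 := Real.rpow_le_one_of_one_le_of_nonpos (re_le v hv) (by linarith)
  have h3 : ‖v + ((1 / 2 : ℝ) : ℂ)‖ ≤ ‖v‖ + 1 / 2 := by
    refine (norm_add_le _ _).trans ?_
    rw [Complex.norm_real, Real.norm_of_nonneg (by norm_num)]
  have hG : 0 < Real.Gamma (m - a) := Real.Gamma_pos_of_pos (by linarith)
  calc _ ≤ ((Real.Gamma (m - a))⁻¹ * (‖v + ((1 / 2 : ℝ) : ℂ)‖ + m) ^ m) * 1 := by
        gcongr
    _ ≤ _ := by
        rw [mul_one]
        gcongr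

lemma diff_ff {a : ℝ} (ha : 1 / 2 ≤ a) (v : ℂ) (hv : 0 ≤ v.re) : DifferentiableAt ℂ (ff a) v := by
  unfold ff
  refine DifferentiableAt.mul (DifferentiableAt.mul ?_ ?_) ?_
  · refine (Complex.differentiableAt_Gamma _ ?_).comp _ (by fun_prop)
    intro m hm
    have := congrArg Complex.re hm
    simp at this
    have h5 : (0 : ℝ) ≤ m := Nat.cast_nonneg m
    linarith
  · exact (Complex.differentiable_one_div_Gamma _).comp (f := fun v : ℂ => v + ((1 / 2 : ℝ) : ℂ)) _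
      (by fun_prop)
  · refine DifferentiableAt.cpow (by fun_prop) (by fun_prop) ?_
    left
    rw [add_re, one_re]
    linarith

theorem rhp {a : ℝ} (ha : 1 / 2 ≤ a) (hq : ∃ C : ℝ, 0 < C ∧ ∀ y : ℝ, 1 ≤ |y| →
    ‖Gamma ((((1 / 2 + a : ℝ) : ℂ) + y * I)) * (Gamma (((1 / 2 : ℝ) : ℂ) + y * I))⁻¹‖ ≤
      C * |y| ^ a) :
    ∃ C : ℝ, 0 < C ∧ ∀ w : ℂ, 1 / 2 ≤ w.re → ‖Gamma (w + a) * (Gamma w)⁻¹‖ ≤
      C * (1 + ‖w‖) ^ a := by
  obtain ⟨C1, hC1, h1⟩ := hq
  obtain ⟨m, hm⟩ := exists_nat_gt (a + 1)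
  have hm0 : (0 : ℝ) < m := by linarith
  have hG : 0 < Real.Gamma (m - a) := Real.Gamma_pos_of_pos (by linarith)
  obtain ⟨C, hC⟩ : ∃ C : ℝ, C = max C1 ((Real.Gamma (m - a))⁻¹ * (1 + 1 / 2 + m) ^ m) :=
    ⟨_, rfl⟩
  have hC0 : 0 < C := by rw [hC]; exact lt_max_of_lt_left hC1
  have him : ∀ y : ℝ, ‖ff a (y * I)‖ ≤ C := by
    intro y
    rcases le_or_gt 1 |y| with hy | hy
    · rw [norm_ff]
      have e1 : (y : ℂ) * I + ((1 / 2 : ℝ) : ℂ) + a = ((1 / 2 + a : ℝ) : ℂ) + y * I := by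
        push_cast
        ring
      have e2 : (y : ℂ) * I + ((1 / 2 : ℝ) : ℂ) = ((1 / 2 : ℝ) : ℂ) + y * I := by
        ring
      rw [e1, e2]
      have h2 := h1 y hy
      have h3 : |y| ≤ ‖(y : ℂ) * I + 1‖ := by
        have := Complex.abs_im_le_norm ((y : ℂ) * I + 1)
        simpa using this
      have hy0 : 0 < |y| := by linarith
      have h4 : ‖(y : ℂ) * I + 1‖ ^ (-a) ≤ |y| ^ (-a) :=
        Real.rpow_le_rpow_of_nonpos hy0 h3 (by linarith)
      calc _ ≤ (C1 * |y| ^ a) * |y| ^ (-a) := by gcongr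
        _ = C1 := by
          rw [mul_assoc, ← Real.rpow_add hy0, add_neg_cancel, Real.rpow_zero, mul_one]
        _ ≤ C := by rw [hC]; exact le_max_left _ _
    · have h2 := ff_crude ha hm ((y : ℂ) * I) (by simp)
      have h3 : ‖(y : ℂ) * I‖ ≤ 1 := by
        rw [norm_mul, Complex.norm_I, mul_one, Complex.norm_real, Real.norm_eq_abs]
        exact hy.le
      refine h2.trans ?_
      rw [hC]
      refine le_trans ?_ (le_max_right _ _)
      gcongr
  have hpl : ∀ v : ℂ, 0 ≤ v.re → ‖ff a v‖ ≤ C := by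
    intro v hv
    refine PhragmenLindelof.right_half_plane_of_bounded_on_real (f := ff a) ?_ ?_ ?_ him hv
    · refine DifferentiableOn.diffContOnCl fun z hz => ?_
      have hz' : 0 ≤ z.re := by
        have : z ∈ closure {z : ℂ | 0 < z.re} := hz
        rw [Complex.closure_setOfPred_lt_re] at this
        exact this
      exact (diff_ff ha z hz').differentiableWithinAt
    · refine ⟨1, by norm_num, 1, ?_⟩
      refine Asymptotics.IsBigO.of_bound ((Real.Gamma (m - a))⁻¹ * (m.factorial *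
        Real.exp (1 / 2 + m))) ?_
      refine eventually_inf_principal.2 (Eventually.of_forall fun z hz => ?_)
      have hz' : 0 < z.re := hz
      refine (ff_crude ha hm z hz'.le).trans ?_
      have h5 := Real.pow_div_factorial_le_exp (x := ‖z‖ + 1 / 2 + m) (by positivity) m
      rw [div_le_iff₀ (by positivity)] at h5
      rw [Real.norm_of_nonneg (Real.exp_pos _).le, Real.rpow_one, one_mul]
      calc (Real.Gamma (m - a))⁻¹ * (‖z‖ + 1 / 2 + m) ^ m
          ≤ (Real.Gamma (m - a))⁻¹ * (Real.exp (‖z‖ + 1 / 2 + m) * m.factorial) := by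
            gcongr
        _ = _ := by
            rw [show ‖z‖ + 1 / 2 + (m : ℝ) = (1 / 2 + m) + ‖z‖ by ring, Real.exp_add]
            ring
    · refine isBoundedUnder_of_eventually_le (a := ((m : ℝ) + 1) ^ a) ?_
      filter_upwards [eventually_ge_atTop (0 : ℝ)] with x hx
      rw [norm_ff]
      have hx1 : 0 < x + 1 / 2 := by linarith
      have e1 : (x : ℂ) + ((1 / 2 : ℝ) : ℂ) + a = ((x + 1 / 2 + a : ℝ) : ℂ) := by push_cast; ring
      have e2 : (x : ℂ) + ((1 / 2 : ℝ) : ℂ) = ((x + 1 / 2 : ℝ) : ℂ) := by push_cast; ring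
      have e3 : (x : ℂ) + 1 = ((x + 1 : ℝ) : ℂ) := by push_cast; ring
      have hGx := Real.Gamma_pos_of_pos hx1
      rw [e1, e2, e3, Complex.Gamma_ofReal, Complex.Gamma_ofReal, norm_mul, norm_inv,
        Complex.norm_real, Complex.norm_real, Complex.norm_real,
        Real.norm_of_nonneg (Real.Gamma_pos_of_pos (by linarith)).le,
        Real.norm_of_nonneg hGx.le, Real.norm_of_nonneg (by linarith : 0 ≤ x + 1)]
      have h6 := gam_real (a := a) (m := m) (by linarith) (by linarith) (x + 1 / 2) hx1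
      have h7 : x + 1 / 2 + m ≤ (m + 1) * (x + 1) := by nlinarith
      have hx2 : 0 < x + 1 := by linarith
      calc Real.Gamma (x + 1 / 2 + a) * (Real.Gamma (x + 1 / 2))⁻¹ * (x + 1) ^ (-a)
          ≤ ((x + 1 / 2 + m) ^ a * Real.Gamma (x + 1 / 2)) * (Real.Gamma (x + 1 / 2))⁻¹ *
            (x + 1) ^ (-a) := by gcongr
        _ = (x + 1 / 2 + m) ^ a * (x + 1) ^ (-a) := by
            rw [mul_assoc ((x + 1 / 2 + m) ^ a), mul_inv_cancel₀ hGx.ne', mul_one]
        _ ≤ ((m + 1) * (x + 1)) ^ a * (x + 1) ^ (-a) := by gcongr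
        _ = ((m : ℝ) + 1) ^ a := by
            rw [Real.mul_rpow (by positivity) hx2.le, mul_assoc, ← Real.rpow_add hx2,
              add_neg_cancel, Real.rpow_zero, mul_one]
  refine ⟨C, hC0, fun w hw => ?_⟩
  have h8 := hpl (w - ((1 / 2 : ℝ) : ℂ)) (by rw [sub_re, ofReal_re]; linarith)
  rw [norm_ff, sub_add_cancel] at h8
  have h9 : 0 < ‖w - ((1 / 2 : ℝ) : ℂ) + 1‖ := by
    have := re_le (w - ((1 / 2 : ℝ) : ℂ)) (by rw [sub_re, ofReal_re]; linarith)
    linarith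
  have h10 : ‖w - ((1 / 2 : ℝ) : ℂ) + 1‖ ≤ 1 + ‖w‖ := by
    have e : w - ((1 / 2 : ℝ) : ℂ) + 1 = ((1 / 2 : ℝ) : ℂ) + w := by
      push_cast
      ring
    rw [e]
    refine (norm_add_le _ _).trans ?_
    rw [Complex.norm_real, Real.norm_of_nonneg (by norm_num)]
    linarith
  rw [Real.rpow_neg h9.le, ← div_eq_mul_inv, div_le_iff₀ (by positivity)] at h8
  refine h8.trans ?_
  gcongr

end GAMU

open GAMU in
theorem gam : S_GAM := by
  intro σ₀ hσ
  have hπ := Real.pi_pos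
  obtain ⟨C1, hC1, h1⟩ := Pool.Agent.N846.DT.gam σ₀ hσ
  obtain ⟨a, ha⟩ : ∃ a : ℝ, a = 1 / 2 + σ₀ := ⟨_, rfl⟩
  have ha0 : 1 / 2 ≤ a := by rw [ha]; linarith
  obtain ⟨C2, hC2, h2⟩ := rhp ha0 (by
    obtain ⟨C, hC, h⟩ := Pool.Agent.N846.DT.GAM.quo a 1
    exact ⟨C, hC, fun y hy => h (1 / 2) y (by norm_num) (by norm_num) hy⟩)
  refine ⟨max C1 C2, lt_max_of_lt_left hC1, fun z hz => ?_⟩
  rw [← ha]
  rcases le_or_gt z.re 1 with hz1 | hz1
  · have h3 := h1 z hz hz1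
    rw [← ha] at h3
    refine h3.trans ?_
    have h4 := Complex.abs_im_le_norm z
    have h5 : 0 ≤ |z.im| := abs_nonneg _
    gcongr
    exact le_max_left _ _
  · have h3 := h2 (z / 2) (by
      have : (z / 2).re = z.re / 2 := by simp
      rw [this]
      linarith)
    have ez2 : (z + ((1 + 2 * σ₀ : ℝ) : ℂ)) / 2 = z / 2 + (a : ℂ) := by
      rw [ha]
      push_cast
      ring
    rw [Complex.Gammaℝ_def, Complex.Gammaℝ_def, ez2]
    have e3 : ‖(Real.pi : ℂ) ^ (-(z + ((1 + 2 * σ₀ : ℝ) : ℂ)) / 2)‖ *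
        ‖((Real.pi : ℂ) ^ (-z / 2))⁻¹‖ = Real.pi ^ (-a) := by
      rw [norm_inv, norm_cpow_eq_rpow_re_of_pos hπ, norm_cpow_eq_rpow_re_of_pos hπ,
        ← Real.rpow_neg hπ.le, ← Real.rpow_add hπ]
      congr 1
      rw [ha]
      simp
      ring
    have e4 : Real.pi ^ (-a) ≤ 1 :=
      Real.rpow_le_one_of_one_le_of_nonpos (by linarith [Real.pi_gt_three]) (by linarith)
    rw [mul_inv, norm_mul, norm_mul, norm_mul]
    rw [norm_mul] at h3
    have h4 : ‖z / 2‖ ≤ ‖z‖ := by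
      rw [norm_div]
      have : ‖(2 : ℂ)‖ = 2 := by simp
      rw [this]
      have := norm_nonneg z
      linarith
    calc ‖(Real.pi : ℂ) ^ (-(z + ((1 + 2 * σ₀ : ℝ) : ℂ)) / 2)‖ * ‖Gamma (z / 2 + (a : ℂ))‖ *
          (‖((Real.pi : ℂ) ^ (-z / 2))⁻¹‖ * ‖(Gamma (z / 2))⁻¹‖)
        = (‖(Real.pi : ℂ) ^ (-(z + ((1 + 2 * σ₀ : ℝ) : ℂ)) / 2)‖ *
          ‖((Real.pi : ℂ) ^ (-z / 2))⁻¹‖) *
          (‖Gamma (z / 2 + (a : ℂ))‖ * ‖(Gamma (z / 2))⁻¹‖) := by ring
      _ ≤ 1 * (C2 * (1 + ‖z / 2‖) ^ a) := by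
          rw [e3]
          gcongr
      _ ≤ _ := by
          rw [one_mul]
          gcongr
          exact le_max_right _ _

end Pool.Agent.N846.DU
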