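import Pool.Agent.N846.DU.Stm

/-!
# DU/LEFT: trivial zeros and the size on the left

After DT/PAIR of helper73.
-/

set_option autoImplicit false

namespace Pool.Agent.N846.DU

open Complex MeasureTheory Filter Topology NumberField IsDedekindDomain

namespace LeftAux

variable {K : Type} [Field K] [NumberField K]

theorem norm_term_le (u w : VX K → ℂ) (s : ℂ) (x : VX K) :
    ‖u x * (starRingEnd ℂ) (w x) * Complex.exp (-(s * (LV x : ℂ)))‖ ≤
    ‖u x‖ ^ 2 * Real.exp (-(s.re * LV x)) / 2 +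
      ‖w x‖ ^ 2 * Real.exp (-(s.re * LV x)) / 2 := by
  rw [norm_mul, norm_mul, RCLike.norm_conj, Complex.norm_exp]
  have e : (-(s * (LV x : ℂ))).re = -(s.re * LV x) := by simp
  rw [e]
  have h1 : 0 < Real.exp (-(s.re * LV x)) := Real.exp_pos _
  have h2 := sq_nonneg (‖u x‖ - ‖w x‖)
  nlinarith

theorem norm_exp_logRS {u w : VX K → ℂ}
    (hu : ∀ σ : ℝ, 1 < σ → Summable fun x : VX K => ‖u x‖ ^ 2 * Real.exp (-(σ * LV x)))
    (hw : ∀ σ : ℝ, 1 < σ → Summable fun x : VX K => ‖w x‖ ^ 2 * Real.exp (-(σ * LV x)))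
    {s : ℂ} (hs : 1 < s.re) :
    ‖Complex.exp (logRS u w s)‖ ≤
      Real.exp ((∑' x : VX K, ‖u x‖ ^ 2 * Real.exp (-(s.re * LV x))) / 2 +
            (∑' x : VX K, ‖w x‖ ^ 2 * Real.exp (-(s.re * LV x))) / 2) := by
  rw [Complex.norm_exp]
  refine Real.exp_le_exp.2 ((Complex.re_le_norm _).trans ?_)
  unfold logRS
  have h1 := (hu _ hs).div_const 2
  have h2 := (hw _ hs).div_const 2
  have h3 : Summable fun x : VX K =>
      ‖u x * (starRingEnd ℂ) (w x) * Complex.exp (-(s * (LV x : ℂ)))‖ :=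
    Summable.of_nonneg_of_le (fun _ => norm_nonneg _) (norm_term_le u w s) (h1.add h2)
  refine (norm_tsum_le_tsum_norm h3).trans ?_
  rw [← tsum_div_const, ← tsum_div_const, ← h1.tsum_add h2]
  exact h3.tsum_le_tsum (norm_term_le u w s) (h1.add h2)

end LeftAux

open LeftAux

theorem left (hG : S_GAM) : S_LEFT := by
  intro N σ₀ hσ
  obtain ⟨C, hC, hGam⟩ := hG σ₀ hσ
  refine ⟨(1 + σ₀) * (C * (1 + σ₀) ^ (1 / 2 + σ₀)) ^ N, by positivity, ?_⟩
  intro K _ _ u w q κ m hm hRS hu hw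
  obtain ⟨F, Ξ, ω, hω, hF, hΞ, hFe, hgr, hΞF, hfe⟩ := hRS.cont
  have hκ := hRS.re_gt
  have hq1 := hRS.one_le
  have hq0 : (0 : ℝ) < q := lt_of_lt_of_le one_pos hq1
  have hqc : (q : ℂ) ≠ 0 := by exact_mod_cast hq0.ne'
  -- the identity everywhere
  have key : ∀ s : ℂ, s ^ m * F s * (q : ℂ) ^ (s / 2) = Ξ s * ∏ j, (Gammaℝ (s + κ j))⁻¹ := by
    set G : ℂ → ℂ := fun s => Ξ s * ∏ j, (Gammaℝ (s + κ j))⁻¹ with hG
    set H : ℂ → ℂ := fun s => s ^ m * F s * (q : ℂ) ^ (s / 2) with hH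
    have hGd : Differentiable ℂ G := by
      refine hΞ.mul ?_
      refine Differentiable.fun_finsetProd fun j _ => ?_
      exact differentiable_Gammaℝ_inv.comp (by fun_prop)
    have hHd : Differentiable ℂ H := by
      refine ((differentiable_id.pow m).mul hF).mul ?_
      intro s
      exact (DifferentiableAt.const_cpow (by fun_prop) (Or.inl hqc))
    have hev : H =ᶠ[𝓝 (3 : ℂ)] G := by
      have hopen : IsOpen {s : ℂ | 1 < s.re} := isOpen_lt continuous_const Complex.continuous_re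
      filter_upwards [hopen.mem_nhds (show (3 : ℂ) ∈ {s : ℂ | 1 < s.re} by simp)] with s hs
      have hs' : 1 < s.re := hs
      simp only [hG, hH]
      rw [hΞF s hs']
      have hp : ∏ j, Gammaℝ (s + κ j) ≠ 0 := by
        refine Finset.prod_ne_zero_iff.2 fun j _ => Gammaℝ_ne_zero_of_re_pos ?_
        have := hκ j
        rw [Complex.add_re]
        linarith
      have e : ∏ j, (Gammaℝ (s + κ j))⁻¹ = (∏ j, Gammaℝ (s + κ j))⁻¹ := by
        simp_rw [Finset.prod_inv_distrib]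
      rw [e, mul_assoc, mul_assoc, mul_assoc, mul_assoc, mul_inv_cancel₀ hp, mul_one]
    have hFa : AnalyticOnNhd ℂ H Set.univ := hHd.differentiableOn.analyticOnNhd isOpen_univ
    have hGa : AnalyticOnNhd ℂ G Set.univ := hGd.differentiableOn.analyticOnNhd isOpen_univ
    have := hFa.eq_of_eventuallyEq hGa hev
    intro s
    exact congrFun this s
  refine ⟨F, hF, hFe, hgr, fun hm0 j => ?_, fun t => ?_⟩
  · have h1 := key (-(κ j))
    have h0 : ∏ j', (Gammaℝ (-(κ j) + κ j'))⁻¹ = 0 := by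
      refine Finset.prod_eq_zero (Finset.mem_univ j) ?_
      rw [neg_add_cancel, inv_eq_zero]
      exact Gammaℝ_eq_zero_iff.2 ⟨0, by simp⟩
    rw [h0, mul_zero, hm0, pow_zero, one_mul] at h1
    rcases mul_eq_zero.1 h1 with h2 | h2
    · exact h2
    · exact absurd h2 (by
        rw [Complex.cpow_def_of_ne_zero hqc]
        exact Complex.exp_ne_zero _)
  · set s : ℂ := ((-σ₀ : ℝ) : ℂ) + t * I with hs
    set z : ℂ := ((1 + σ₀ : ℝ) : ℂ) + t * I with hz
    have hzre : z.re = 1 + σ₀ := by simp [hz]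
    have hsre : s.re = -σ₀ := by simp [hs]
    have hsim : s.im = t := by simp [hs]
    have hz1 : 1 < z.re := by rw [hzre]; linarith
    have hs0 : s ≠ 0 := by
      intro h
      rw [h] at hsre
      simp at hsre
      linarith
    have h1 : ‖Ξ s‖ = ‖Ξ z‖ := by
      have h2 := hfe (1 - s)
      rw [sub_sub_cancel] at h2
      have h3 : (starRingEnd ℂ) (1 - s) = z := by
        apply Complex.ext
        · simp [hs, hz]
        · simp [hs, hz]
      rw [h2, norm_mul, hω, one_mul, RCLike.norm_conj, h3]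
    have hqs : ∀ v : ℂ, ‖(q : ℂ) ^ v‖ = q ^ v.re := fun v => Complex.norm_cpow_eq_rpow_re_of_pos hq0 v
    have h2 : ‖Ξ z‖ = ‖z‖ ^ m * ‖F z‖ * (q ^ ((1 + σ₀) / 2) * ∏ j, ‖Gammaℝ (z + κ j)‖) := by
      rw [hΞF z hz1, norm_mul, norm_mul, norm_mul, norm_prod, norm_pow, hqs]
      congr 3
      have : (z / 2).re = z.re / 2 := by
        rw [show z / 2 = z * ((1 / 2 : ℝ) : ℂ) by push_cast; ring, Complex.re_mul_ofReal]
        ring
      rw [this, hzre]
    have h3 : ‖s‖ ^ m * ‖F s‖ = ‖z‖ ^ m * ‖F z‖ * (q ^ (1 / 2 + σ₀) *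
        ∏ j, ‖Gammaℝ (s + κ j + ((1 + 2 * σ₀ : ℝ) : ℂ)) * (Gammaℝ (s + κ j))⁻¹‖) := by
      have h4 : ‖s‖ ^ m * ‖F s‖ * q ^ (-σ₀ / 2) = ‖Ξ z‖ * ∏ j, ‖(Gammaℝ (s + κ j))⁻¹‖ := by
        rw [← h1, ← norm_prod, ← norm_mul, ← key s, norm_mul, norm_mul, norm_pow, hqs]
        congr 2
        rw [show s / 2 = s * ((1 / 2 : ℝ) : ℂ) by push_cast; ring, Complex.re_mul_ofReal, hsre]
        ring
      have h5 : (0 : ℝ) < q ^ (-σ₀ / 2) := Real.rpow_pos_of_pos hq0 _
      have h6 : ∏ j, ‖Gammaℝ (s + κ j + ((1 + 2 * σ₀ : ℝ) : ℂ)) * (Gammaℝ (s + κ j))⁻¹‖ =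
          (∏ j, ‖Gammaℝ (z + κ j)‖) * ∏ j, ‖(Gammaℝ (s + κ j))⁻¹‖ := by
        rw [← Finset.prod_mul_distrib]
        refine Finset.prod_congr rfl fun j _ => ?_
        rw [← norm_mul]
        congr 3
        rw [hs, hz]
        push_cast
        ring
      have h7 : q ^ ((1 + σ₀) / 2) = q ^ (1 / 2 + σ₀) * q ^ (-σ₀ / 2) := by
        rw [← Real.rpow_add hq0]
        congr 1
        ring
      rw [h2, h7] at h4
      rw [h6]
      refine mul_right_cancel₀ h5.ne' (h4.trans ?_)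
      ring
    have hcancel : ‖z‖ ^ m * ‖F z‖ ≤ ‖s‖ ^ m * ((1 + σ₀) * (1 + |t|) ^ m * ‖Complex.exp (logRS u w z)‖) := by
      rw [hFe z hz1, norm_mul, norm_pow]
      have e1 : ‖z - 1‖ = ‖s‖ := by
        have : (starRingEnd ℂ) (z - 1) = -s := by
          apply Complex.ext
          · simp [hs, hz]
          · simp [hs, hz]
        rw [← RCLike.norm_conj (z - 1), this, norm_neg]
      have e2 : ‖z‖ ≤ (1 + σ₀) * (1 + |t|) := by
        have h8 : ‖z‖ ≤ |1 + σ₀| + |t| := by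
          rw [hz]
          refine (norm_add_le _ _).trans ?_
          rw [norm_mul, Complex.norm_I, mul_one, Complex.norm_real, Complex.norm_real,
            Real.norm_eq_abs, Real.norm_eq_abs]
        rw [abs_of_pos (by linarith)] at h8
        have := abs_nonneg t
        nlinarith
      have e3 : ‖z‖ ^ m ≤ (1 + σ₀) * (1 + |t|) ^ m := by
        have h9 := abs_nonneg t
        interval_cases m
        · simp
          linarith
        · simpa using e2
      rw [e1]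
      have h8 : 0 ≤ ‖s‖ ^ m * ‖Complex.exp (logRS u w z)‖ := by positivity
      calc ‖z‖ ^ m * (‖s‖ ^ m * ‖Complex.exp (logRS u w z)‖)
          ≤ ((1 + σ₀) * (1 + |t|) ^ m) * (‖s‖ ^ m * ‖Complex.exp (logRS u w z)‖) :=
            mul_le_mul_of_nonneg_right e3 h8
        _ = _ := by ring
    have hgam : ∏ j, ‖Gammaℝ (s + κ j + ((1 + 2 * σ₀ : ℝ) : ℂ)) * (Gammaℝ (s + κ j))⁻¹‖ ≤
        (C * (1 + σ₀) ^ (1 / 2 + σ₀)) ^ N * (∏ j, (1 + ‖κ j + t * I‖)) ^ (1 / 2 + σ₀) := by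
      have h5 : ∏ j, ‖Gammaℝ (s + κ j + ((1 + 2 * σ₀ : ℝ) : ℂ)) * (Gammaℝ (s + κ j))⁻¹‖ ≤
          ∏ j : Fin N, (C * (1 + σ₀) ^ (1 / 2 + σ₀) * (1 + ‖κ j + t * I‖) ^ (1 / 2 + σ₀)) := by
        refine Finset.prod_le_prod (fun j _ => norm_nonneg _) fun j _ => ?_
        have h6 := hGam (s + κ j) (by
          rw [Complex.add_re, hsre]
          linarith [hκ j])
        refine h6.trans ?_
        rw [mul_assoc]
        refine mul_le_mul_of_nonneg_left ?_ hC.le
        rw [← Real.mul_rpow (by linarith) (by positivity)]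
        refine Real.rpow_le_rpow (by positivity) ?_ (by linarith)
        have h7 : ‖s + κ j‖ ≤ σ₀ + ‖κ j + t * I‖ := by
          have : s + κ j = ((-σ₀ : ℝ) : ℂ) + (κ j + t * I) := by rw [hs]; ring
          rw [this]
          refine (norm_add_le _ _).trans ?_
          rw [Complex.norm_real, norm_neg, Real.norm_of_nonneg hσ.le]
        have := norm_nonneg (κ j + t * I)
        nlinarith
      refine h5.trans (le_of_eq ?_)
      rw [Finset.prod_mul_distrib, Finset.prod_const, Finset.card_univ, Fintype.card_fin,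
          Real.finsetProd_rpow _ _ fun j _ => by positivity]
    have hE := norm_exp_logRS hu hw hz1
    rw [hzre] at hE
    set E : ℝ := Real.exp ((∑' x : VX K, ‖u x‖ ^ 2 * Real.exp (-((1 + σ₀) * LV x))) / 2 +
            (∑' x : VX K, ‖w x‖ ^ 2 * Real.exp (-((1 + σ₀) * LV x))) / 2) with hEdef
    have hsm : 0 < ‖s‖ ^ m := pow_pos (norm_pos_iff.2 hs0) _
    have hP : (0 : ℝ) ≤ ∏ j, (1 + ‖κ j + t * I‖) := Finset.prod_nonneg fun j _ => by positivity
    have hfin : ‖s‖ ^ m * ‖F s‖ ≤ ‖s‖ ^ m * ((1 + σ₀) * (C * (1 + σ₀) ^ (1 / 2 + σ₀)) ^ N *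
        (1 + |t|) ^ m * (q * ∏ j, (1 + ‖κ j + t * I‖)) ^ (1 / 2 + σ₀) * E) := by
      rw [h3]
      have hq2 : (0 : ℝ) ≤ q ^ (1 / 2 + σ₀) := Real.rpow_nonneg hq0.le _
      calc ‖z‖ ^ m * ‖F z‖ * (q ^ (1 / 2 + σ₀) *
          ∏ j, ‖Gammaℝ (s + κ j + ((1 + 2 * σ₀ : ℝ) : ℂ)) * (Gammaℝ (s + κ j))⁻¹‖)
          ≤ (‖s‖ ^ m * ((1 + σ₀) * (1 + |t|) ^ m * E)) * (q ^ (1 / 2 + σ₀) *
            ((C * (1 + σ₀) ^ (1 / 2 + σ₀)) ^ N * (∏ j, (1 + ‖κ j + t * I‖)) ^ (1 / 2 + σ₀))) := by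
            refine mul_le_mul (hcancel.trans ?_) (mul_le_mul_of_nonneg_left hgam hq2) ?_ (by positivity)
            · refine mul_le_mul_of_nonneg_left ?_ hsm.le
              exact mul_le_mul_of_nonneg_left hE (by positivity)
            · exact mul_nonneg hq2 (Finset.prod_nonneg fun j _ => norm_nonneg _)
        _ = _ := by
            rw [Real.mul_rpow hq0.le hP]
            ring
    exact le_of_mul_le_mul_left hfin hsm

end Pool.Agent.N846.DU
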