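import Pool.Agent.N846.DT.Main

/-!
# A density theorem for the violations of the Ramanujan conjecture on `GL(n)` over number fields: definitions, parts

`N846/DU`: project of helper846, problem `MP_8410ab_nt`.
-/

set_option autoImplicit false

namespace Pool.Agent.N846.DU

open Complex MeasureTheory NumberField IsDedekindDomain
open Pool.Agent.N846.DT (PairF)

variable {K : Type} [Field K] [NumberField K] {n N : ℕ}

/-- the norm of a finite place -/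
noncomputable def Nv (v : HeightOneSpectrum (𝓞 K)) : ℝ := (Ideal.absNorm v.asIdeal : ℝ)

/-- the index `(v, k, j)`: a finite place, the exponent `k + 1`, a type `j` -/
abbrev VX (K : Type) [Field K] [NumberField K] := HeightOneSpectrum (𝓞 K) × ℕ × ℕ

/-- `log (N v ^ (k + 1))` -/
noncomputable def LV (x : VX K) : ℝ := ((x.2.1 : ℝ) + 1) * Real.log (Nv x.1)

/-- the series `∑ u(x) conj w(x) N(x)^{-s}` -/
noncomputable def logRS (u w : VX K → ℂ) (s : ℂ) : ℂ :=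
  ∑' x, u x * (starRingEnd ℂ) (w x) * Complex.exp (-(s * (LV x : ℂ)))

/-- A unitary cuspidal automorphic representation `π` of `GL_n` over `K`, unramified outside the finite set `S`, with
Satake parameters `α v`, `v ∉ S`; `u` is the vector of the normalised coefficients of `log L(s, π × π~)`:
`log L(s, π_v × π'~_v) = ∑_{k,j} u(v, k, j) conj u'(v, k, j) N v^{-(k+1) s}` for any two `π`, `π'`. At the places `v ∉ S` the
only coefficient is the one with `j = 0`, the power sum of the Satake parameters. -/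
structure Rep (n : ℕ) (S : Finset (HeightOneSpectrum (𝓞 K))) (α : HeightOneSpectrum (𝓞 K) → Fin n → ℂ)
    (u : VX K → ℂ) : Prop where
  ne_zero : ∀ v, v ∉ S → ∀ i, α v i ≠ 0
  /-- `π_v` is unitary -/
  unitary : ∀ v, v ∉ S → ∃ τ : Equiv.Perm (Fin n), ∀ i, α v (τ i) = ((starRingEnd ℂ) (α v i))⁻¹
  /-- the bound of Jacquet and Shalika -/
  bound : ∀ v, v ∉ S → ∀ i, ‖α v i‖ < Nv v ^ (1 / 2 : ℝ)
  unram : ∀ v, v ∉ S → ∀ k j : ℕ, u (v, k, j) =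
    if j = 0 then (∑ i, α v i ^ (k + 1)) / ((Real.sqrt ((k : ℝ) + 1) : ℝ) : ℂ) else 0
  /-- the local factors `L(s, π_v × π~_v)` have degree at most `n²` and no poles for `Re s ≥ 1` -/
  local_bound : ∀ v (k : ℕ), (Summable fun j : ℕ => ‖u (v, k, j)‖ ^ 2) ∧
    ∑' j : ℕ, ‖u (v, k, j)‖ ^ 2 ≤ (n : ℝ) ^ 2 * Nv v ^ (k + 1)
  /-- absolute convergence of `L(s, π × π~)` for `Re s > 1` -/
  summable : ∀ σ : ℝ, 1 < σ → Summable fun x : VX K => ‖u x‖ ^ 2 * Real.exp (-(σ * LV x))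

/-- The Rankin-Selberg `L`-function `L(s, π × π'~)` with arithmetic conductor `q` and Gamma factors `Γ_ℝ(s + κ_j)`, with
a pole of order `m` at `s = 1` (`m = 1` if `π = π'`, `m = 0` if not): `F(s) = (s - 1)^m L(s, π × π'~)` is entire and of
polynomial growth in vertical strips, `Ξ(s) = s^m F(s) q^{s/2} ∏ Γ_ℝ(s + κ_j)` is entire and satisfies the functional
equation `Ξ(1 - s) = ω conj (Ξ (conj s))` with `|ω| = 1`. -/
structure RS (u w : VX K → ℂ) (q : ℝ) (κ : Fin N → ℂ) (m : ℕ) : Prop where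
  one_le : 1 ≤ q
  re_gt : ∀ j, -1 < (κ j).re
  cont : ∃ (F Ξ : ℂ → ℂ) (ω : ℂ), ‖ω‖ = 1 ∧ Differentiable ℂ F ∧ Differentiable ℂ Ξ ∧
    (∀ s : ℂ, 1 < s.re → F s = (s - 1) ^ m * Complex.exp (logRS u w s)) ∧
    (∀ a b : ℝ, ∃ C A : ℝ, ∀ s : ℂ, a ≤ s.re → s.re ≤ b → ‖F s‖ ≤ C * (1 + |s.im|) ^ A) ∧
    (∀ s : ℂ, 1 < s.re → Ξ s = s ^ m * F s * ((q : ℂ) ^ (s / 2) * ∏ j, Complex.Gammaℝ (s + κ j))) ∧
    ∀ s : ℂ, Ξ (1 - s) = ω * (starRingEnd ℂ) (Ξ ((starRingEnd ℂ) s))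

/-- A family of pairwise different unitary cuspidal automorphic representations `π_f` of `GL_n` over `K`, with central
characters trivial on the positive reals: `q f g` and `κ f g` are the arithmetic conductor and the shifts in the Gamma
factors of `L(s, π_f × π_g~)`. -/
structure GLFamily {ι : Type} (n N : ℕ) (S : ι → Finset (HeightOneSpectrum (𝓞 K)))
    (α : ι → HeightOneSpectrum (𝓞 K) → Fin n → ℂ) (u : ι → VX K → ℂ) (q : ι → ι → ℝ)
    (κ : ι → ι → Fin N → ℂ) : Prop where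
  rep : ∀ f, Rep n (S f) (α f) (u f)
  self : ∀ f, RS (u f) (u f) (q f f) (κ f f) 1
  pair : ∀ f g, f ≠ g → RS (u f) (u g) (q f g) (κ f g) 0

/-- the coefficients without the place `v` -/
noncomputable def uV (v : HeightOneSpectrum (𝓞 K)) (u : VX K → ℂ) (x : VX K) : ℂ :=
  open Classical in if x.1 = v then 0 else u x

/-- the Euler factor at `v` -/
noncomputable def EV (v : HeightOneSpectrum (𝓞 K)) (α β : HeightOneSpectrum (𝓞 K) → Fin n → ℂ) (s : ℂ) : ℂ :=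
  ∏ i, ∏ j, (1 - α v i * (starRingEnd ℂ) (β v j) * Complex.exp (-(s * (Real.log (Nv v) : ℂ))))

/-- GAM: quotients of Gamma factors, uniformly in a half-plane -/
def S_GAM : Prop := ∀ σ₀ : ℝ, 0 < σ₀ → ∃ C : ℝ, 0 < C ∧ ∀ z : ℂ, -1 - σ₀ ≤ z.re →
  ‖Complex.Gammaℝ (z + ((1 + 2 * σ₀ : ℝ) : ℂ)) * (Complex.Gammaℝ z)⁻¹‖ ≤ C * (1 + ‖z‖) ^ (1 / 2 + σ₀)

/-- LEFT: trivial zeros and size to the left, for both kinds of pairs -/
def S_LEFT : Prop := ∀ (N : ℕ) (σ₀ : ℝ), 0 < σ₀ → ∃ C : ℝ, 0 < C ∧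
  ∀ (K : Type) [Field K] [NumberField K] (u w : VX K → ℂ) (q : ℝ) (κ : Fin N → ℂ) (m : ℕ), m ≤ 1 → RS u w q κ m →
    (∀ σ : ℝ, 1 < σ → Summable fun x : VX K => ‖u x‖ ^ 2 * Real.exp (-(σ * LV x))) →
    (∀ σ : ℝ, 1 < σ → Summable fun x : VX K => ‖w x‖ ^ 2 * Real.exp (-(σ * LV x))) →
    ∃ F : ℂ → ℂ, Differentiable ℂ F ∧ (∀ s : ℂ, 1 < s.re → F s = (s - 1) ^ m * Complex.exp (logRS u w s)) ∧
      (∀ a b : ℝ, ∃ C A : ℝ, ∀ s : ℂ, a ≤ s.re → s.re ≤ b → ‖F s‖ ≤ C * (1 + |s.im|) ^ A) ∧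
      (m = 0 → ∀ j, F (-(κ j)) = 0) ∧
      ∀ t : ℝ, ‖F (((-σ₀ : ℝ) : ℂ) + t * I)‖ ≤
        C * (1 + |t|) ^ m * (q * ∏ j, (1 + ‖κ j + t * I‖)) ^ (1 / 2 + σ₀) *
          Real.exp ((∑' x : VX K, ‖u x‖ ^ 2 * Real.exp (-((1 + σ₀) * LV x))) / 2 +
            (∑' x : VX K, ‖w x‖ ^ 2 * Real.exp (-((1 + σ₀) * LV x))) / 2)

/-- DIAG: `L(s, π × π~)` to the right of `s = 1` -/
def S_DIAG : Prop := ∀ (K : Type) [Field K] [NumberField K] (n N : ℕ) (η ε : ℝ), 0 < η → 0 < ε → ∃ C : ℝ, 0 < C ∧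
  ∀ (S : Finset (HeightOneSpectrum (𝓞 K))) (α : HeightOneSpectrum (𝓞 K) → Fin n → ℂ) (u : VX K → ℂ) (q : ℝ)
    (κ : Fin N → ℂ), Rep n S α u → RS u u q κ 1 →
    Real.exp (∑' x : VX K, ‖u x‖ ^ 2 * Real.exp (-((1 + η) * LV x))) ≤ C * (q * ∏ j, (1 + ‖κ j‖)) ^ ε

/-- EUL: removing the Euler factor at a place -/
def S_EUL : Prop := ∀ (K : Type) [Field K] [NumberField K] (n : ℕ) (v : HeightOneSpectrum (𝓞 K))
  (S S' : Finset (HeightOneSpectrum (𝓞 K))) (α β : HeightOneSpectrum (𝓞 K) → Fin n → ℂ) (u w : VX K → ℂ)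
  (F : ℂ → ℂ), Rep n S α u → Rep n S' β w → v ∉ S → v ∉ S' → PairF u w LV F →
  PairF (uV v u) (uV v w) LV (fun s => F s * EV v α β s)

end Pool.Agent.N846.DU
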